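import Pool.Agent.X55.Fam.Win

/-!
# The almost prime analogue of `π(y) - ρ(y) → ∞` fails at integers with prescribed digital functions

Let `α < 1 / 2`, let `y` be large, and let `K` be the maximal number of the integers without prime factors up to `y` in
windows `(n, n + y]`; we have `K ≥ π(y) + α y log log log y / log ^ 2 y`, and no window `(n, n + y]`, `n ≥ y`, contains more
than `K` primes. Let `S` be a strongly `b`-additive function with values in a finite abelian group `G` (for example the sum
of the digits in base `b`, or any vector of numbers of occurrences of nonzero digits, modulo some integers), which is not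
degenerate: no nontrivial character of the group makes it a function of the residue of `n` modulo `b - 1`.

For every `g` in `G` windows `(n, n + y]` with exactly `K` almost primes, and no more, with `S(n) = g`, exist in the right
order of magnitude in every interval `(M, M + H]` (with numbers of the size of at most a fixed power of `H`), with the
corresponding upper bound for windows with `K` primes. So the difference between `π(y)` and the maximal number of almost
primes in the windows at such `n` tends to `-∞`. The proof combines the lower bound for `K` (in the starting files), a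
sieve which is uniform in the removed residue classes and the exponential sums of digital functions (in the starting
files), over the blocks of a short interval.
-/

set_option autoImplicit false

namespace Pool.Agent.Results.MP_5046ca_nt.DigitalFunctions

open Finset Pool.Agent.X55.Forms

/-- The bounds for the windows `(n, n + y]` at the `n` in `(M, M + H]` with the property `R`, with the expected number
`X` and the parameter `P`: if `M + H ≤ P ^ B`, then for at least `c X / log ^ K P` of the `n` the window contains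
exactly `K` integers with at most `r` prime factors, all greater than `P ^ δ`; and (always) for at most
`C X / log ^ K P` of the `n ≥ y` the window contains `K` primes. -/
def WindowBounds (y K P r : ℕ) (δ c C : ℝ) (B M H : ℕ) (R : ℕ → Prop) (X : ℝ) : Prop :=
  (M + H ≤ P ^ B → c * X / Real.log P ^ K ≤
    Set.ncard {n : ℕ | M < n ∧ n ≤ M + H ∧ R n ∧ (positions r ((P : ℝ) ^ δ) y n).card = K}) ∧
  (Set.ncard {n : ℕ | M < n ∧ n ≤ M + H ∧ R n ∧ y ≤ n ∧ K ≤ (primePositions y n).card} : ℝ) ≤
    C * X / Real.log P ^ K

lemma of_windows {y K P r : ℕ} {δ c C : ℝ} {B M H : ℕ} {R : ℕ → Prop} {X : ℝ} {T : Finset ℕ}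
    (hT : Pool.Agent.X26.SV.Ext y T) (hK : T.card = K) (h : Windows y K P r δ c C B M H R X) :
    WindowBounds y K P r δ c C B M H R X := by
  refine ⟨fun hMH => (h.1 hMH T hT).trans ?_, h.2⟩
  have h1 : {n : ℕ | M < n ∧ n ≤ M + H ∧ R n ∧ positions r ((P : ℝ) ^ δ) y n = T} ⊆
      {n : ℕ | M < n ∧ n ≤ M + H ∧ R n ∧ (positions r ((P : ℝ) ^ δ) y n).card = K} := by
    rintro n ⟨h1, h2, h3, h4⟩
    refine ⟨h1, h2, h3, ?_⟩
    rw [h4, hK]
  exact_mod_cast Set.ncard_le_ncard h1 ((Set.finite_Ioc M (M + H)).subset fun n hn => ⟨hn.1, hn.2.1⟩)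

theorem result (α : ℝ) (hα : α < 1 / 2) : ∃ y₀ : ℕ, ∀ y : ℕ, y₀ ≤ y → ∃ K : ℕ,
    (Nat.primeCounting y : ℝ) + α * (y * Real.log (Real.log (Real.log y)) / Real.log y ^ 2) ≤ K ∧
    (∀ n : ℕ, y ≤ n → (primePositions y n).card ≤ K) ∧
    ∀ (G : Type) [AddCommGroup G] [Fintype G] (b : ℕ) (S : ℕ → G), 2 ≤ b → Digital b S →
    ∀ B : ℕ, 1 ≤ B → ∃ (r : ℕ) (δ c C : ℝ) (H₀ : ℕ), 0 < δ ∧ 0 < c ∧ 0 < C ∧
      ∀ H : ℕ, H₀ ≤ H → (∀ n : ℕ, (positions r ((H : ℝ) ^ δ) y n).card ≤ K) ∧
      ∀ (M : ℕ) (g : G), WindowBounds y K H r δ c C B M H (fun n => S n = g) (H / Fintype.card G) := by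
  obtain ⟨y₀, hy₀⟩ := Pool.Agent.X26.SV.ext_hr hα
  refine ⟨max y₀ 1, fun y hy => ?_⟩
  obtain ⟨T, hT⟩ := Pool.Agent.X26.SV.exists_ext y
  have hy1 : 1 ≤ y := (le_max_right _ _).trans hy
  refine ⟨T.card, hy₀ y ((le_max_left _ _).trans hy) T hT,
    fun n hn => (card_le_card (primePositions_sub hn)).trans (hT.2 n), fun G _ _ b S hb hS B hB => ?_⟩
  obtain ⟨r, δ, c, C, P₀, hδ, hc, hC, h⟩ := winDigital b hb S hS y hy1 T hT B hB
  refine ⟨r, δ, c, C, P₀, hδ, hc, hC, ?_⟩
  intro H hH
  obtain ⟨h1, h2⟩ := h H hH
  exact ⟨fun n => positions_le hT h1, fun M g => of_windows hT rfl (h2 M g)⟩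

end Pool.Agent.Results.MP_5046ca_nt.DigitalFunctions
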