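import Mathlib
import Pool.Agent.X26.SV.Uns

/-!
# The almost prime analogue of `π(y) - ρ(y) → ∞` is false, in a strong form

Replace the primes in the definition of `ρ(y)` by the products of at most `j` primes, all of them larger than
`x ^ (1 / j)`, `x` the size of the numbers. For `α < 1 / 2` and all large `y` the maximal number `H` of such numbers in
windows `(n, n + y]` satisfies `H ≥ π(y) + α y log log log y / log ^ 2 y` (so the difference of `π(y)` and `H` tends to
`-∞`), and it is attained: if `j` is large, then for at least `c X / log ^ H x` integers `n` of every interval of length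
`X ≥ x ^ θ` in `[1, x]`. Moreover let lengths `y_1, …, y_M` be given, and arbitrary intervals of length `X`. Then a
positive proportion of the vectors `d ∈ [1, D] ^ m` serves for all `i ≤ M` and all `F ⊆ {0, …, κ - 1} ^ m` containing
`0` at once: for at least `c X / log ^ (H_i |F|) x` integers `n` of the `i`-th interval all the windows of length `y_i` at
the `n + ∑ f_l d_l`, `f ∈ F`, contain the maximal number `H_i` of almost primes. (For primes in place of the almost
primes the question is open in both directions.)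
-/

set_option autoImplicit false

namespace Pool.Agent.Results.MP_5046ca_nt.FailsForAlmostPrimes

open Finset

/-- `N` is a product of at most `j` primes, all of them larger than `w` -/
def Almost (j : ℕ) (w : ℝ) (N : ℕ) : Prop :=
  N ≠ 0 ∧ N.primeFactorsList.length ≤ j ∧ ∀ q : ℕ, q.Prime → q ∣ N → w < q

open Classical in
/-- the number of the `t ∈ (n, n + y]` which are products of at most `j` primes, all larger than `x ^ (1 / j)` -/
noncomputable def count (j x n y : ℕ) : ℕ :=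
  ((Ioc n (n + y)).filter (fun t => Almost j ((x : ℝ) ^ (1 / (j : ℝ))) t)).card

open Classical in
/-- the `n ∈ (u, u + X]` with `count j x n y = H` -/
noncomputable def Full (j x y H u X : ℕ) : Finset ℕ := (Ioc u (u + X)).filter (fun n => count j x n y = H)

/-- Let `α < 1 / 2`. There is `y₀` such that for all `M` and all `y_1, …, y_M ≥ y₀` there are integers `H_i` with
`H_i ≥ π(y_i) + α y_i log log log y_i / log ^ 2 y_i` and: for every `θ > 0` there are `j ≥ 1` and `c₀ > 0` with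
1. for all large `x` and all `i`: `count j x n y_i ≤ H_i` for all `n`, and equality holds for at least
  `c₀ X / log ^ H_i x` integers `n` of every window `(u, u + X] ⊆ [1, x]` with `X ≥ x ^ θ`;
2. for all `m`, `κ` there are `c > 0` and `B` such that for all large `x`, all windows `(u_i, u_i + X] ⊆ [1, x]` with
  `X ≥ x ^ θ` and all `D` with `log ^ B x ≤ D ≤ X`, at least `c D ^ m` vectors `d` with entries in `[1, D]` have the
  following property: for all sets `F` of vectors with entries in `{0, ..., κ - 1}` which contain `0` and all `i`, for at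
  least `c X / log ^ (H_i |F|) x` integers `n` with `count j x n y_i = H_i` in the `i`-th window all the
  `n + ∑ f_l d_l`, `f ∈ F`, are such integers in this window. -/
theorem result (α : ℝ) (hα : α < 1 / 2) : ∃ y₀ : ℕ, ∀ (M : ℕ) (y : Fin M → ℕ), (∀ i, y₀ ≤ y i) →
    ∃ H : Fin M → ℕ, (∀ i, (Nat.primeCounting (y i) : ℝ) +
        α * (y i * Real.log (Real.log (Real.log (y i))) / Real.log (y i) ^ 2) ≤ (H i : ℝ)) ∧
    ∀ θ : ℝ, 0 < θ → ∃ j : ℕ, 1 ≤ j ∧ ∃ c₀ : ℝ, 0 < c₀ ∧
    (∃ x₀ : ℕ, ∀ x : ℕ, x₀ ≤ x → ∀ i, (∀ n : ℕ, count j x n (y i) ≤ H i) ∧ ∀ u X : ℕ, (x : ℝ) ^ θ ≤ X →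
      u + X ≤ x → c₀ * (X / Real.log x ^ H i) ≤ ((Full j x (y i) (H i) u X).card : ℝ)) ∧
    ∀ m κ : ℕ, ∃ c : ℝ, 0 < c ∧ ∃ B x₀ : ℕ, ∀ x : ℕ, x₀ ≤ x → ∀ (u : Fin M → ℕ) (X D : ℕ),
      (x : ℝ) ^ θ ≤ X → X ≤ x → (∀ i, u i + X ≤ x) → Real.log x ^ B ≤ D → D ≤ X →
      ∃ G : Finset (Fin m → ℕ), (∀ d ∈ G, ∀ l, 1 ≤ d l ∧ d l ≤ D) ∧ c * (D : ℝ) ^ m ≤ (G.card : ℝ) ∧
        ∀ d ∈ G, ∀ F : Finset (Fin m → ℕ), (∀ f ∈ F, ∀ l, f l < κ) → (fun _ => 0) ∈ F → ∀ i,
          c * (X / Real.log x ^ (H i * F.card)) ≤ (((Full j x (y i) (H i) (u i) X).filter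
            (fun n => ∀ f ∈ F, n + ∑ l, f l * d l ∈ Full j x (y i) (H i) (u i) X)).card : ℝ) := by
  classical
  obtain ⟨y₀, hy₀⟩ := Pool.Agent.X26.SV.ext_hr hα
  refine ⟨y₀, fun M y hy => ?_⟩
  choose T hT using fun i => Pool.Agent.X26.SV.exists_ext (y i)
  refine ⟨fun i => (T i).card, fun i => hy₀ (y i) (hy i) (T i) (hT i), fun θ hθ => ?_⟩
  obtain ⟨j, hj, c₀, hc₀, ⟨x₁, h1⟩, h2⟩ := Pool.Agent.X26.SV.mainM M y (fun i => (T i).card) hθ
  obtain ⟨L, hL⟩ : ∃ L : ℕ, ∀ i, (y i) ^ j ≤ L :=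
    ⟨univ.sup (fun i => (y i) ^ j), fun i => le_sup (f := fun i => (y i) ^ j) (mem_univ i)⟩
  have hlg : ∀ i (x : ℕ), L ≤ x → ((y i : ℕ) : ℝ) ≤ (x : ℝ) ^ (1 / (j : ℝ)) := fun i x hx =>
    Pool.Agent.X26.SV.large hj ((hL i).trans hx)
  have hsub : ∀ i (x u X : ℕ), L ≤ x →
      Pool.Agent.X26.MC.Rg j x (Pool.Agent.X26.SV.iT (T i)) u X ⊆ Full j x (y i) (T i).card u X := by
    intro i x u X hx n hn
    unfold Full
    rw [mem_filter]
    exact ⟨Pool.Agent.X26.MC.Rg_sub _ _ _ _ _ hn, Pool.Agent.X26.SV.cnt_of_Rg (hT i) (hlg i x hx) hn⟩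
  refine ⟨j, hj, c₀, hc₀, ⟨max x₁ L, fun x hx i => ⟨fun n => ?_, fun u X hX huX => ?_⟩⟩, ?_⟩
  · exact Pool.Agent.X26.SV.cnt_le (hT i) (hlg i x ((le_max_right _ _).trans hx))
  · refine (h1 x ((le_max_left _ _).trans hx) i (T i) (Pool.Agent.X26.SV.ext_sub (hT i)) rfl
      (Pool.Agent.X26.SV.ext_adm (hT i)) u X hX huX).trans ?_
    exact Nat.cast_le.2 (card_le_card (hsub i x u X ((le_max_right _ _).trans hx)))
  · intro m κ
    obtain ⟨c, hc, B, x₂, h3⟩ := h2 m κ
    refine ⟨c, hc, B, max x₂ L, fun x hx u X D hX hXx huX hBD hDX => ?_⟩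
    obtain ⟨G, g1, g2, g3⟩ := h3 x ((le_max_left _ _).trans hx) T
      (fun i => ⟨Pool.Agent.X26.SV.ext_sub (hT i), rfl, Pool.Agent.X26.SV.ext_adm (hT i)⟩) u X D hX hXx huX hBD hDX
    refine ⟨G, g1, g2, fun d hd F hF hF0 i => ?_⟩
    refine (g3 d hd F hF hF0 i).trans ?_
    apply Nat.cast_le.2
    apply card_le_card
    intro n hn
    rw [mem_filter] at hn ⊢
    have hs := hsub i x (u i) X ((le_max_right _ _).trans hx)
    exact ⟨hs hn.1, fun f hf => hs (hn.2 f hf)⟩

end Pool.Agent.Results.MP_5046ca_nt.FailsForAlmostPrimes
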