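import Pool.Agent.X119.MilWin
import Pool.Agent.H381R2.HR.Main

/-!
# Windows with more than `π(y)` almost primes at all the numbers `⌊θ ^ (c ^ n)⌋`

Let `α < 1 / 2`, `c > 1`, and prescribe lengths `y_n ∈ [y₀, K]`, `y₀` depending only on `α`. The `θ > 1` such that for
all large `n` the window `(N_n, N_n + y_n]`, `N_n = ⌊θ ^ (c ^ n)⌋`, contains at least
`π(y_n) + α y_n log log log y_n / log ^ 2 y_n` integers without a prime factor `≤ N_n ^ κ`, and the maximal number `H(y_n)`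
of such integers (no interval of length `y_n` contains more than `H(y_n)` integers without a prime factor `≤ y_n`), form a
set of Hausdorff dimension at least `s(κ)` in each open set that meets `(1, ∞)`, where `s(κ) → 1` as `κ → 0`; with `κ`
depending on `θ` the dimension is `1`.

The inputs are the theorem `Pool.Agent.X37.RD.record_ap` and the improved Hensley–Richards theorem
`Pool.Agent.H381R2.HR.final` of the starting library; the Cantor set argument is `Pool.Agent.X10.ML`.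
-/

set_option autoImplicit false

namespace Pool.Agent.Results.MP_5046ca_nt.MillsSequences

open Finset

open Classical in
/-- the number of the integers in `(m, m + y]` without a prime factor `≤ y` -/
noncomputable def sifted (y m : ℕ) : ℕ := ((Ioc m (m + y)).filter (fun n => ∀ p : ℕ, p.Prime → p ≤ y → ¬ p ∣ n)).card

open Classical in
/-- the number of the integers in `(m, m + y]` all of whose prime factors are larger than `m ^ κ` -/
noncomputable def count (κ : ℝ) (y m : ℕ) : ℕ :=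
  ((Ioc m (m + y)).filter (fun n => ∀ p : ℕ, p.Prime → p ∣ n → (m : ℝ) ^ κ < p)).card

/-- The number of almost primes in `(m, m + y]` exceeds `π(y)` by `α y log log log y / log ^ 2 y`, and it is at least the
number of the integers without a prime factor `≤ y` in any interval of length `y`. -/
def Full (α κ : ℝ) (y m : ℕ) : Prop :=
  (Nat.primeCounting y : ℝ) + α * (y * Real.log (Real.log (Real.log y)) / Real.log y ^ 2) ≤ (count κ y m : ℝ) ∧
    ∀ m' : ℕ, sifted y m' ≤ count κ y m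

theorem sifted_eq (m k : ℕ) : (Pool.Agent.X119.Mil.uns m k).card = sifted k m := by
  classical
  unfold Pool.Agent.X119.Mil.uns sifted
  refine card_bij (fun t _ => m + t) ?_ ?_ ?_
  · intro t ht
    rw [mem_filter, mem_Ioc] at ht ⊢
    exact ⟨⟨by omega, by omega⟩, ht.2⟩
  · intro a _ b _ hab
    exact Nat.add_left_cancel hab
  · intro n hn
    rw [mem_filter, mem_Ioc] at hn
    refine ⟨n - m, ?_, by omega⟩
    rw [mem_filter, mem_Ioc, show m + (n - m) = n by omega]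
    exact ⟨⟨by omega, by omega⟩, hn.2⟩

theorem count_eq (κ : ℝ) (m k : ℕ) : (Pool.Agent.X119.Mil.rgh κ k m).card = count κ k m := by
  classical
  unfold Pool.Agent.X119.Mil.rgh count
  refine card_bij (fun t _ => m + t) ?_ ?_ ?_
  · intro t ht
    rw [mem_filter, mem_Ioc] at ht ⊢
    exact ⟨⟨by omega, by omega⟩, ht.2⟩
  · intro a _ b _ hab
    exact Nat.add_left_cancel hab
  · intro n hn
    rw [mem_filter, mem_Ioc] at hn
    refine ⟨n - m, ?_, by omega⟩
    rw [mem_filter, mem_Ioc, show m + (n - m) = n by omega]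
    exact ⟨⟨by omega, by omega⟩, hn.2⟩

/-- a set which misses a class modulo every prime is contained in the unsifted positions of an interval
(adapted from `Pool.Agent.X26.SV.ext_ge`) -/
theorem ext_ge {y : ℕ} {S : Finset ℤ} (hS : ∀ s ∈ S, 0 ≤ s ∧ (s : ℝ) < y)
    (hA : ∀ q : ℕ, q.Prime → ∃ r : ℤ, ∀ s ∈ S, ¬ ((q : ℤ) ∣ s - r)) {T : Finset ℕ}
    (hT : Pool.Agent.X119.Mil.Ext y T) : S.card ≤ T.card := by
  classical
  have hA' : ∀ q : ℕ, ∃ r : ℤ, q.Prime → ∀ s ∈ S, ¬ ((q : ℤ) ∣ s - r) := by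
    intro q
    by_cases hq : q.Prime
    · obtain ⟨r, hr⟩ := hA q hq
      exact ⟨r, fun _ => hr⟩
    · exact ⟨0, fun h => absurd h hq⟩
  choose r hr using hA'
  obtain ⟨P, hP⟩ : ∃ P : Finset ℕ, P = (Icc 1 y).filter Nat.Prime := ⟨_, rfl⟩
  have hPp : ∀ p ∈ P, p.Prime := fun p hp => by rw [hP, mem_filter] at hp; exact hp.2
  obtain ⟨m, hm⟩ := Nat.chineseRemainderOfFinset (fun p => ((-1 - r p) % (p : ℤ)).toNat) (fun p => p) P
    (fun p hp => (hPp p hp).ne_zero) (by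
      intro a ha b hb hab
      exact (Nat.coprime_primes (hPp a ha) (hPp b hb)).2 hab)
  refine le_trans ?_ (hT.2 m)
  have h1 : (S.image (fun s : ℤ => (s + 1).toNat)).card = S.card := by
    apply card_image_of_injOn
    intro a ha b hb hab
    have h2 := (hS a ha).1
    have h3 := (hS b hb).1
    change (a + 1).toNat = (b + 1).toNat at hab
    omega
  rw [← h1]
  apply card_le_card
  intro t ht
  rw [mem_image] at ht
  obtain ⟨s, hs, rfl⟩ := ht
  have hs0 := (hS s hs).1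
  have hsy : s < y := by exact_mod_cast (hS s hs).2
  unfold Pool.Agent.X119.Mil.uns
  rw [mem_filter, mem_Ioc]
  refine ⟨⟨by omega, by omega⟩, fun p hp hpy hd => ?_⟩
  have hpP : p ∈ P := by
    rw [hP, mem_filter, mem_Icc]
    exact ⟨⟨hp.pos, hpy⟩, hp⟩
  have h2 := hm p hpP
  have hp0 : (0 : ℤ) < p := by exact_mod_cast hp.pos
  have h3 : (m : ℤ) ≡ -1 - r p [ZMOD p] := by
    have h4 : (m : ℤ) ≡ ((((-1 - r p) % (p : ℤ)).toNat : ℕ) : ℤ) [ZMOD p] := (Int.natCast_modEq_iff).2 h2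
    rw [Int.toNat_of_nonneg (Int.emod_nonneg _ hp0.ne')] at h4
    exact h4.trans (Int.mod_modEq _ _)
  apply hr p hp s hs
  have h5 : (p : ℤ) ∣ (m : ℤ) + (s + 1) := by
    have h6 : ((m + (s + 1).toNat : ℕ) : ℤ) = (m : ℤ) + (s + 1) := by
      rw [Nat.cast_add, Int.toNat_of_nonneg (by omega)]
    rw [← h6]
    exact_mod_cast hd
  have h7 : (p : ℤ) ∣ (-1 - r p) - m := Int.ModEq.dvd h3
  have h8 : s - r p = ((m : ℤ) + (s + 1)) + ((-1 - r p) - m) := by ring
  rw [h8]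
  exact dvd_add h5 h7

/-- more than `π(y)` positions -/
theorem ext_hr {α : ℝ} (hα : α < 1 / 2) : ∃ y₀ : ℕ, ∀ y : ℕ, y₀ ≤ y → ∀ T, Pool.Agent.X119.Mil.Ext y T →
    (Nat.primeCounting y : ℝ) + α * (y * Real.log (Real.log (Real.log y)) / Real.log y ^ 2) ≤ (T.card : ℝ) := by
  obtain ⟨x₀, h⟩ := Pool.Agent.H381R2.HR.final hα
  refine ⟨⌈x₀⌉₊, fun y hy T hT => ?_⟩
  obtain ⟨S, _, h1, h2, h3⟩ := h y ((Nat.le_ceil _).trans (by exact_mod_cast hy))
  rw [Nat.floor_natCast] at h3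
  refine h3.trans ?_
  exact_mod_cast ext_ge h1 h2 hT

/-- **Windows with more than `π(y)` almost primes along doubly exponential sequences.** -/
theorem result (α : ℝ) (hα : α < 1 / 2) : ∃ y₀ : ℕ, ∀ (K : ℕ) (c : ℝ), 1 < c →
    (∀ s : ℝ, s < 1 → ∃ κ : ℝ, 0 < κ ∧ ∀ y : ℕ → ℕ, (∀ n, y₀ ≤ y n ∧ y n ≤ K) →
      ∀ U : Set ℝ, IsOpen U → (U ∩ Set.Ioi 1).Nonempty →
      ENNReal.ofReal s ≤ dimH {θ : ℝ | θ ∈ U ∧ 1 < θ ∧ ∃ N : ℕ, ∀ n : ℕ, N ≤ n →
        Full α κ (y n) ⌊θ ^ (c ^ n)⌋₊}) ∧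
    ∀ y : ℕ → ℕ, (∀ n, y₀ ≤ y n ∧ y n ≤ K) →
      ∀ U : Set ℝ, IsOpen U → (U ∩ Set.Ioi 1).Nonempty →
      dimH {θ : ℝ | θ ∈ U ∧ 1 < θ ∧ ∃ κ : ℝ, 0 < κ ∧ ∃ N : ℕ, ∀ n : ℕ, N ≤ n →
        Full α κ (y n) ⌊θ ^ (c ^ n)⌋₊} = 1 := by
  obtain ⟨y₀, hy₀⟩ := ext_hr hα
  choose T hT using Pool.Agent.X119.Mil.exists_ext
  have key : ∀ (κ : ℝ) (y m : ℕ), y₀ ≤ y → Pool.Agent.X119.Mil.rgh κ y m = T y → Full α κ y m := by
    intro κ y m hy h
    refine ⟨?_, fun m' => ?_⟩
    · rw [← count_eq, h]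
      exact hy₀ y hy (T y) (hT y)
    · rw [← count_eq, h, ← sifted_eq]
      exact (hT y).2 m'
  refine ⟨max y₀ 1, fun K c hc => ?_⟩
  obtain ⟨h1, h2⟩ := Pool.Agent.X119.Mil.windows K c hc
  constructor
  · intro s hs
    obtain ⟨κ, hκ, h⟩ := h1 s hs
    refine ⟨κ, hκ, fun y hy U hU hne => ?_⟩
    refine (h y (fun n => T (y n)) (fun n => ⟨(le_max_right _ _).trans (hy n).1, (hy n).2, hT (y n)⟩)
      U hU hne).trans (dimH_mono ?_)
    rintro θ ⟨t1, t2, N, t3⟩
    exact ⟨t1, t2, N, fun n hn => key κ _ _ ((le_max_left _ _).trans (hy n).1) (t3 n hn)⟩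
  · intro y hy U hU hne
    apply le_antisymm
    · refine (dimH_mono (Set.subset_univ _)).trans ?_
      rw [Real.dimH_univ]
    · rw [← h2 y (fun n => T (y n)) (fun n => ⟨(le_max_right _ _).trans (hy n).1, (hy n).2, hT (y n)⟩) U hU hne]
      apply dimH_mono
      rintro θ ⟨t1, t2, κ, hκ, N, t3⟩
      exact ⟨t1, t2, κ, hκ, N, fun n hn => key κ _ _ ((le_max_left _ _).trans (hy n).1) (t3 n hn)⟩

end Pool.Agent.Results.MP_5046ca_nt.MillsSequences
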